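import Mathlib

set_option autoImplicit false

namespace Pool.Agent.H.MP_28d887_lc

def T1 (t h i j : ℕ) : ℕ :=
  83005705346100640885521703816440257535988133053990194498975752604 /
    4 ^ min 108 (36 * t + 12 * h + 4 * i + j) % 4
def T2 (t h i j : ℕ) : ℕ :=
  83006044310748195668322467805779227180413740320919879153980204257 /
    4 ^ min 108 (36 * t + 12 * h + 4 * i + j) % 4
def MF (t : ℕ) (b : Bool) (h i : ℕ) : ℕ := if b then i else 10293909339316641 / 4 ^ (9 * t + 3 * h + i) % 4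

def pr (t h x y z u v : ℕ) : Bool :=
  Nat.blt (T1 t h x y) (T1 t h x u) || (Nat.beq y u && Nat.blt (T2 t h x z) (T2 t h x v))
def hap (t h u : ℕ) : Prop := T1 t h 0 u < T1 t h 0 3
instance (t h u : ℕ) : Decidable (hap t h u) := by unfold hap; infer_instance

def sel (a : ℕ × ℕ × ℕ) (i : ℕ) : ℕ := if i = 0 then a.1 else if i = 1 then a.2.1 else a.2.2
def inv (q : ℕ → ℕ) (j : ℕ) : ℕ := if q 0 = j then 0 else if q 1 = j then 1 else if q 2 = j then 2 else 3
def L3 : List ℕ := [0, 1, 2]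
def L4 : List (ℕ × ℕ × ℕ) := [0, 1, 2, 3] ×ˢ [0, 1, 2, 3] ×ˢ [0, 1, 2, 3]
def c1 (a : ℕ → ℕ) : Bool := L3.all fun i => a i == 3 || inv a (a i) == i
def c2 (a b c : ℕ → ℕ) : Bool := L3.all fun i => a i == 3 || b (a i) == inv c i
def blk (t : ℕ) (a b c : ℕ → ℕ) : Bool := L3.any fun x => L3.any fun y => L3.any fun z =>
  pr t 0 x y z (a x) (inv c x) && pr t 1 y z x (b y) (inv a y) && pr t 2 z x y (c z) (inv b z)
def SC (t a b c : ℕ) : Prop :=
  (t = 0 → ¬ (hap t 0 a ∧ hap t 1 b)) ∧ (t = 1 → ¬ (hap t 0 a ∧ hap t 2 c)) ∧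
  (t = 2 → ¬ hap t 2 c) ∧ ¬ (hap t 1 b ∧ hap t 2 c ∧ t ≠ 2)
instance (t a b c : ℕ) : Decidable (SC t a b c) := by unfold SC; infer_instance
def chk (t : ℕ) (a b c : ℕ → ℕ) : Bool := !(c2 a b c && c2 b c a && c2 c a b) || blk t a b c ||
  ((L3.all fun i => a i != 3 && b i != 3 && c i != 3) && decide (SC t (a 0) (b 0) (c 0)))
def J : List (ℕ × ℕ × ℕ) := L4.filter fun a => c1 (sel a)

lemma K1 : (L3.all fun t => J.all fun a => J.all fun b => J.all fun c => chk t (sel a) (sel b) (sel c)) = true := by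
  decide +kernel

set_option synthInstance.maxSize 4000 in
lemma K2 : ∀ t < 3, ∀ h < 3, ∀ b : Bool, (∀ i < 3, MF t b h i < 3 ∧
    MF t b ((h + 2) % 3) (MF t b ((h + 1) % 3) (MF t b h i)) = i) ∧ ∀ x < 3, ∀ y < 3, ∀ z < 3,
      ¬ (pr t h x y z (MF t b h x) (MF t b ((h + 1) % 3) (MF t b h x)) ∧
      pr t ((h + 1) % 3) y z x (MF t b ((h + 1) % 3) y) (MF t b ((h + 2) % 3) (MF t b ((h + 1) % 3) y)) ∧
      pr t ((h + 2) % 3) z x y (MF t b ((h + 2) % 3) z) (MF t b h (MF t b ((h + 2) % 3) z))) := by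
  decide +kernel

lemma K3 : hap 0 0 (MF 0 true 0 0) ∧ hap 1 0 (MF 1 false 0 0) ∧ ∀ t < 2, hap t 1 (MF t false 1 0) ∧
    hap t 2 (MF t true 2 0) := by decide +kernel

set_option synthInstance.maxSize 4000 in
lemma K4 : ∀ t < 3, ∀ h < 3, ∀ i < 3, T2 t h i 3 = 3 ∧ ∀ j < 4, ∀ k < 4,
    (T1 t h i j = T1 t h i k → j = k) ∧ (T2 t h i j = T2 t h i k → j = k) := by decide +kernel

lemma mL3 {i : ℕ} : i ∈ L3 ↔ i < 3 := by simp [L3]; omega

lemma loc {t : ℕ} (ht : t < 3) (p s : ℕ → ℕ → ℕ) (hp : ∀ h i, p h i ≤ 3) (hs : ∀ h i, s h i ≤ 3)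
    (A : ∀ h, ∀ i < 3, p h i < 3 → p (h + 1) (p h i) = s h i)
    (B : ∀ h, ∀ i < 3, s h i < 3 → p (h + 2) (s h i) = i)
    (C : ∀ h, ∀ i < 3, p h i < 3 → s (h + 1) (p h i) = i)
    (P1 : ∀ h, p (h + 3) = p h) (P2 : ∀ h, s (h + 3) = s h)
    (NB : ∀ x < 3, ∀ y < 3, ∀ z < 3, ¬ (pr t 0 x y z (p 0 x) (s 0 x) ∧ pr t 1 y z x (p 1 y) (s 1 y) ∧
      pr t 2 z x y (p 2 z) (s 2 z))) :
    (∀ h < 3, ∀ i < 3, p h i < 3) ∧ SC t (p 0 0) (p 1 0) (p 2 0) := by
  have e : ∀ h, ∀ j < 3, inv (p h) j = s (h + 1) j := fun h j hj => by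
    unfold inv
    split_ifs with h0 h1 h2
    · exact h0 ▸ (C h 0 (by omega) (by omega)).symm
    · exact h1 ▸ (C h 1 (by omega) (by omega)).symm
    · exact h2 ▸ (C h 2 (by omega) (by omega)).symm
    · by_contra h3
      have h4 := hs (h + 1) j
      have h5 := B (h + 1) j hj (by omega)
      rw [show h + 1 + 2 = h + 3 from rfl, P1] at h5
      generalize s (h + 1) j = k at *
      have : k < 3 := by omega
      interval_cases k <;> contradiction
  have hJ : ∀ h, ∃ a ∈ J, (∀ i < 3, sel a i = p h i) ∧ inv (sel a) = inv (p h) := fun h => by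
    have h1 : ∀ i < 3, sel (p h 0, p h 1, p h 2) i = p h i := fun i hi => by interval_cases i <;> rfl
    refine ⟨(p h 0, p h 1, p h 2), List.mem_filter.2 ⟨?_, ?_⟩, h1, rfl⟩
    · have := hp h 0
      have := hp h 1
      have := hp h 2
      simp only [L4, List.mem_product, List.mem_cons, List.not_mem_nil, or_false]
      omega
    · simp only [c1, List.all_eq_true, mL3, Bool.or_eq_true, beq_iff_eq]
      intro i hi
      have := hp h i
      rw [h1 i hi, or_iff_not_imp_left]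
      exact fun h2 => (e h _ (by omega)).trans (C h i hi (by omega))
  have h2 : ∀ h a b c, (∀ i < 3, sel a i = p h i) → (∀ i < 3, sel b i = p (h + 1) i) →
      inv (sel c) = inv (p (h + 2)) → c2 (sel a) (sel b) (sel c) = true := fun h a b c h1 h2 h3 => by
    simp only [c2, List.all_eq_true, mL3, Bool.or_eq_true, beq_iff_eq]
    intro i hi
    have := hp h i
    rw [h1 i hi, or_iff_not_imp_left, h3, e _ i hi, P2]
    exact fun h4 => (h2 _ (by omega)).trans (A h i hi (by omega))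
  obtain ⟨a, ha, a1, a2⟩ := hJ 0
  obtain ⟨b, hb, b1, b2⟩ := hJ 1
  obtain ⟨c, hc, c1, c3⟩ := hJ 2
  have K := K1
  simp only [List.all_eq_true, mL3] at K
  have K := K t ht a ha b hb c hc
  rw [chk, h2 0 a b c a1 b1 c3, h2 1 b c a b1 c1 (by rw [a2, ← P1 0]),
    h2 2 c a b c1 (by rw [show 2 + 1 = 0 + 3 from rfl, P1]; exact a1) (by rw [b2, ← P1 1])] at K
  simp only [Bool.and_self, Bool.not_true, Bool.false_or, Bool.or_eq_true, Bool.and_eq_true, blk,
    List.any_eq_true, List.all_eq_true, mL3, bne_iff_ne, decide_eq_true_eq] at K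
  rcases K with ⟨x, hx, y, hy, z, hz, K⟩ | ⟨K, K'⟩
  · rw [a1 x hx, b1 y hy, c1 z hz, a2, b2, c3, e _ x hx, e _ y hy, e _ z hz,
      show 2 + 1 = 0 + 3 from rfl, P2] at K
    exact absurd ⟨K.1.1, K.1.2, K.2⟩ (NB x hx y hy z hz)
  · rw [a1 0 (by omega), b1 0 (by omega), c1 0 (by omega)] at K'
    refine ⟨fun h hh i hi => ?_, K'⟩
    have := K i hi
    have h3 := hp h i
    rw [a1 i hi, b1 i hi, c1 i hi] at this
    interval_cases h <;> omega

end Pool.Agent.H.MP_28d887_lc
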