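import Pool.Agent.H.MP_28d887_lc.Gad

set_option autoImplicit false

namespace Pool.Agent.H.MP_28d887_lc

def rel (g c : ℕ) : ℕ := (g + 2 * (c / 2)) % 3

variable (ty : ℕ → ℕ) (fv : ℕ → ℕ → ℕ)

def s1 (g a b : ℕ) : ℕ :=
  if b / 3 = a / 3 then T1 (ty (a / 3)) (rel g (a / 3)) (a % 3) (b % 3)
  else if a % 3 = 0 ∧ b % 3 = 0 ∧ b / 3 = fv (rel g (a / 3)) (a / 3) then
    T1 (ty (a / 3)) (rel g (a / 3)) (a % 3) 3 else 4 + b
def s2 (g a b : ℕ) : ℕ :=
  if b / 3 = a / 3 then T2 (ty (a / 3)) (rel g (a / 3)) (a % 3) (b % 3) else 4 + b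
def Q (g a y z u v : ℕ) : Prop :=
  s1 ty fv g a y < s1 ty fv g a u ∨ (y = u ∧ s2 ty g a z < s2 ty g a v)
def NB (n : ℕ) (P : ℕ → ℕ → ℕ) (g : ℕ) : Prop := ∀ x < n, ∀ y < n, ∀ z < n,
  ¬ (Q ty fv g x y z (P g x) (P (g + 1) (P g x)) ∧
    Q ty fv (g + 1) y z x (P (g + 1) y) (P (g + 2) (P (g + 1) y)) ∧
    Q ty fv (g + 2) z x y (P (g + 2) z) (P g (P (g + 2) z)))
def Good (n : ℕ) (P : ℕ → ℕ → ℕ) : Prop := (∀ g, ∀ x < n, P g x < n) ∧
  (∀ g, ∀ x < n, P (g + 2) (P (g + 1) (P g x)) = x) ∧ (∀ g, P (g + 3) = P g) ∧ NB ty fv n P 0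
def Tri (N : ℕ) (H : ℕ → ℕ → Prop) (g : ℕ) : Prop := ∀ x < N, ∀ y < N, ∀ z < N, y ≠ x → z ≠ y → x ≠ z →
  fv (rel g x) x = y → fv (rel (g + 1) y) y = z → fv (rel (g + 2) z) z = x →
    H (rel g x) x ∨ H (rel (g + 1) y) y ∨ H (rel (g + 2) z) z
def lc (c u : ℕ) : ℕ := if u / 3 = c then u % 3 else 3

variable {ty fv}

lemma T1_lt (t h i j : ℕ) : T1 t h i j < 4 := Nat.mod_lt _ (by omega)
lemma T2_lt (t h i j : ℕ) : T2 t h i j < 4 := Nat.mod_lt _ (by omega)
lemma rel_lt (g c : ℕ) : rel g c < 3 := Nat.mod_lt _ (by omega)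

lemma s1_lt {g a b n : ℕ} (h : b < n) : s1 ty fv g a b < n + 4 := by
  unfold s1
  split_ifs
  exacts [(T1_lt ..).trans_le (by omega), (T1_lt ..).trans_le (by omega), by omega]

lemma s2_lt {g a b n : ℕ} (h : b < n) : s2 ty g a b < n + 4 := by
  unfold s2
  split_ifs
  exacts [(T2_lt ..).trans_le (by omega), by omega]

lemma s1_inj (ht : ∀ c, ty c < 3) {g a b c : ℕ} (h : s1 ty fv g a b = s1 ty fv g a c) : b = c := by
  have K := fun j hj k hk => ((K4 _ (ht (a / 3)) _ (rel_lt g (a / 3)) (a % 3) (by omega)).2 j hj k hk).1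
  have := fun j => T1_lt (ty (a / 3)) (rel g (a / 3)) (a % 3) j
  unfold s1 at h
  split_ifs at h <;> first
    | omega
    | (have := K _ (by omega) _ (by omega) h; omega)
    | (have := h ▸ this _; omega)

lemma s2_inj (ht : ∀ c, ty c < 3) {g a b c : ℕ} (h : s2 ty g a b = s2 ty g a c) : b = c := by
  have K := fun j hj k hk => ((K4 _ (ht (a / 3)) _ (rel_lt g (a / 3)) (a % 3) (by omega)).2 j hj k hk).2
  have := fun j => T2_lt (ty (a / 3)) (rel g (a / 3)) (a % 3) j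
  unfold s2 at h
  split_ifs at h <;> first
    | omega
    | (have := K _ (by omega) _ (by omega) h; omega)
    | (have := h ▸ this _; omega)

lemma Q_of_pr {g c i j k u v : ℕ} (hi : i < 3) (hj : j < 3) (hk : k < 3)
    (h : pr (ty c) (rel g c) i j k (lc c u) (lc c v)) :
    Q ty fv g (3 * c + i) (3 * c + j) (3 * c + k) u v := by
  have e : ∀ i < 3, (3 * c + i) / 3 = c ∧ (3 * c + i) % 3 = i := fun i hi => by omega
  simp only [pr, Bool.or_eq_true, Bool.and_eq_true, Nat.blt_eq, Nat.beq_eq, lc] at h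
  simp only [Q, s1, s2, e i hi, e j hj, e k hk, if_true]
  have := T1_lt (ty c) (rel g c) i j
  have := T2_lt (ty c) (rel g c) i k
  split_ifs at h ⊢ <;> omega

lemma pr_of_Q {g x y z u v : ℕ} (h1 : y / 3 = x / 3) (h2 : z / 3 = x / 3) (h3 : u / 3 = x / 3)
    (h4 : v / 3 = x / 3) (h : Q ty fv g x y z u v) :
    pr (ty (x / 3)) (rel g (x / 3)) (x % 3) (y % 3) (z % 3) (u % 3) (v % 3) := by
  simp only [Q, s1, s2, h1, h2, h3, h4, if_true] at h
  simp only [pr, Bool.or_eq_true, Bool.and_eq_true, Nat.blt_eq, Nat.beq_eq]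
  omega

lemma out_of_Q {g x y z u v : ℕ} (h1 : y / 3 ≠ x / 3) (h3 : u / 3 = x / 3) (h : Q ty fv g x y z u v) :
    x % 3 = 0 ∧ fv (rel g (x / 3)) (x / 3) = y / 3 ∧ ¬ hap (ty (x / 3)) (rel g (x / 3)) (u % 3) := by
  simp only [Q, s1, h1, h3, if_true, if_false] at h
  have := T1_lt (ty (x / 3)) (rel g (x / 3)) (x % 3) (u % 3)
  unfold hap
  split_ifs at h with h4
  · rw [h4.1] at h
    omega
  · omega

lemma Q_of_out (ht : ∀ c, ty c < 3) {g x y z u v : ℕ} (h1 : y ≠ x) (h2 : fv (rel g x) x = y)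
    (h3 : u / 3 = x) (h : ¬ hap (ty x) (rel g x) (u % 3)) : Q ty fv g (3 * x) (3 * y) z u v := by
  have K := ((K4 _ (ht x) _ (rel_lt g x) 0 (by omega)).2 (u % 3) (by omega) 3 (by omega)).1
  have e : ∀ x, 3 * x / 3 = x ∧ 3 * x % 3 = 0 := fun x => by omega
  simp only [Q, s1, e, h1, h2, h3, if_true, if_false, and_self]
  unfold hap at h
  omega

lemma Q_per (g : ℕ) : Q ty fv (g + 3) = Q ty fv g := by
  have : rel (g + 3) = rel g := funext fun c => by unfold rel; omega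
  unfold Q s1 s2
  rw [this]

lemma sound (ht : ∀ c, ty c < 3) {N : ℕ} {P : ℕ → ℕ → ℕ} (h : Good ty fv (3 * N) P) :
    ∃ H : ℕ → ℕ → Prop, (∀ c < N, (ty c = 0 → ¬ (H 0 c ∧ H 1 c)) ∧ (ty c = 1 → ¬ (H 0 c ∧ H 2 c)) ∧
      (ty c = 2 → ¬ H 2 c) ∧ ¬ (H 1 c ∧ H 2 c ∧ ty c ≠ 2)) ∧ ∀ g, Tri fv N H g := by
  obtain ⟨h1, h2, h3, h4⟩ := h
  have nb : ∀ g, NB ty fv (3 * N) P g := fun g => by
    induction g with
    | zero => exact h4
    | succ g ih =>
      intro x hx y hy z hz ⟨a, b, c⟩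
      rw [show g + 1 + 2 = g + 3 from rfl, h3] at b c
      rw [Q_per] at c
      exact ih z hz x hx y hy ⟨c, a, b⟩
  have pm : ∀ g, P g = P (g % 3) := fun g => by
    induction g using Nat.strong_induction_on with
    | _ g ih =>
      by_cases h : g < 3
      · rw [Nat.mod_eq_of_lt h]
      · obtain ⟨g, rfl⟩ : ∃ k, g = k + 3 := ⟨g - 3, by omega⟩
        rw [h3, ih g (by omega), Nat.add_mod_right]
  have pe : ∀ g k, g % 3 = k % 3 → P g = P k := fun g k h => by rw [pm g, h, ← pm]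
  have lo : ∀ c u, lc c u < 3 → u = 3 * c + lc c u := fun c u => by unfold lc; split_ifs <;> omega
  have l2 : ∀ c, ∀ i < 3, lc c (3 * c + i) = i := fun c i hi => by unfold lc; split_ifs <;> omega
  have key : ∀ c < N, _ := fun c hc => loc (ht c) (fun h i => lc c (P (c / 2 + h) (3 * c + i)))
    (fun h i => lc c (P (c / 2 + h + 1) (P (c / 2 + h) (3 * c + i))))
    (fun h i => by unfold lc; split_ifs <;> omega) (fun h i => by unfold lc; split_ifs <;> omega)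
    (fun h i _ h5 => by rw [← lo _ _ h5]; rfl)
    (fun h i hi h5 => by rw [← lo _ _ h5, ← add_assoc, h2 _ _ (by omega), l2 c i hi])
    (fun h i hi h5 => by
      rw [← lo _ _ h5, ← add_assoc, add_assoc _ 1 1, h2 _ _ (by omega), l2 c i hi])
    (fun h => by rw [← add_assoc, h3])
    (fun h => by rw [← add_assoc, pe (c / 2 + h + 3 + 1) (c / 2 + h + 1) (by omega), h3])
    fun x hx y hy z hz ⟨a, b, d⟩ => nb (c / 2) (3 * c + x) (by omega) (3 * c + y) (by omega)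
      (3 * c + z) (by omega) ⟨Q_of_pr hx hy hz (by rwa [show rel _ _ = 0 by unfold rel; omega]),
        Q_of_pr hy hz hx (by rwa [show rel _ _ = 1 by unfold rel; omega]), Q_of_pr hz hx hy (by
          rwa [show rel _ _ = 2 by unfold rel; omega, ← h3 (c / 2)])⟩
  have k2 : ∀ g, ∀ x < N, P g (3 * x) / 3 = x ∧
      lc x (P (x / 2 + rel g x) (3 * x)) = P g (3 * x) % 3 := fun g x hx => by
    have := (key x hx).1 _ (rel_lt g x) 0 (by omega)
    simp only [add_zero] at this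
    rw [pe (x / 2 + rel g x) g (by unfold rel; omega)] at this ⊢
    unfold lc at this ⊢
    split_ifs at this ⊢ <;> omega
  refine ⟨fun h c => hap (ty c) h (lc c (P (c / 2 + h) (3 * c))), fun c hc => (key c hc).2,
    fun g x hx y hy z hz a1 a2 a3 b1 b2 b3 => by_contra fun h => ?_⟩
  simp only [not_or, (k2 _ x hx).2, (k2 _ y hy).2, (k2 _ z hz).2] at h
  exact nb g (3 * x) (by omega) (3 * y) (by omega) (3 * z) (by omega)
    ⟨Q_of_out ht a1 b1 (k2 _ x hx).1 h.1, Q_of_out ht a2 b2 (k2 _ y hy).1 h.2.1,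
      Q_of_out ht a3 b3 (k2 _ z hz).1 h.2.2⟩

lemma compl (ht : ∀ c, ty c < 3) {N : ℕ} (b : ℕ → Bool)
    (h1 : ∀ g x y, y ≠ x → fv (rel g x) x = y → fv (rel (g + 1) y) y ≠ x)
    (h2 : Tri fv N (fun h c => hap (ty c) h (MF (ty c) (b c) h 0)) 0) :
    ∃ P, Good ty fv (3 * N) P := by
  obtain ⟨P, hP⟩ : ∃ P : ℕ → ℕ → ℕ, ∀ g a, P g a / 3 = a / 3 ∧
      P g a % 3 = MF (ty (a / 3)) (b (a / 3)) (rel g (a / 3)) (a % 3) :=
    ⟨fun g a => 3 * (a / 3) + MF (ty (a / 3)) (b (a / 3)) (rel g (a / 3)) (a % 3), fun g a => by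
      have := ((K2 _ (ht (a / 3)) _ (rel_lt g (a / 3)) (b (a / 3))).1 (a % 3) (by omega)).1
      beta_reduce
      omega⟩
  have r1 : ∀ g c, rel (g + 1) c = (rel g c + 1) % 3 := fun g c => by unfold rel; omega
  have r2 : ∀ g c, rel (g + 2) c = (rel g c + 2) % 3 := fun g c => by unfold rel; omega
  refine ⟨P, fun g x hx => by have := hP g x; omega, fun g x _ => ?_, fun g => funext fun a => ?_,
    fun x hx y hy z hz ⟨a1, a2, a3⟩ => ?_⟩
  · have := ((K2 _ (ht (x / 3)) _ (rel_lt g (x / 3)) (b (x / 3))).1 (x % 3) (by omega)).2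
    rw [← Nat.div_add_mod (P _ _) 3]
    simp only [hP, r1 g, r2 g, this, Nat.div_add_mod]
  · rw [← Nat.div_add_mod (P _ _) 3, ← Nat.div_add_mod (P g _) 3]
    simp only [hP, show ∀ c, rel (g + 3) c = rel g c from fun c => by unfold rel; omega]
  · have o1 := fun h => out_of_Q h (hP _ _).1 a1
    have o2 := fun h => out_of_Q h (hP _ _).1 a2
    have o3 := fun h => out_of_Q h (hP _ _).1 a3
    by_cases e1 : y / 3 = x / 3 <;> by_cases e2 : z / 3 = y / 3 <;> by_cases e3 : x / 3 = z / 3 <;>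
      try omega
    · have b1 := pr_of_Q e1 e3.symm (hP _ _).1 (by simp only [hP]) a1
      have b2 := pr_of_Q e2 e1.symm (hP _ _).1 (by simp only [hP]) a2
      have b3 := pr_of_Q e3 e2.symm (hP _ _).1 (by simp only [hP]) a3
      simp only [hP, e1, ← e3, r1 0, r2 0] at b1 b2 b3
      exact (K2 _ (ht (x / 3)) _ (rel_lt 0 (x / 3)) (b (x / 3))).2 _ (by omega) _ (by omega) _
        (by omega) ⟨b1, b2, b3⟩
    · exact h1 _ _ _ e2 (o2 e2).2.1 ((o3 e3).2.1.trans e1.symm)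
    · refine h1 2 _ _ e3 (o3 e3).2.1 (.trans ?_ ((o1 e1).2.1.trans e2.symm))
      rw [show rel (2 + 1) (x / 3) = rel 0 (x / 3) by unfold rel; omega]
    · exact h1 _ _ _ e1 (o1 e1).2.1 ((o2 e2).2.1.trans e3.symm)
    · have := h2 _ (by omega) _ (by omega) _ (by omega) e1 e2 e3 (o1 e1).2.1 (o2 e2).2.1 (o3 e3).2.1
      have c1 := o1 e1
      have c2 := o2 e2
      have c3 := o3 e3
      simp only [hP] at c1 c2 c3
      rw [c1.1] at c1
      rw [c2.1] at c2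
      rw [c3.1] at c3
      tauto

end Pool.Agent.H.MP_28d887_lc
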