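import Pool.Agent.H.MP_28d887_lc.Gen
import Pool.Agent.Lib.lead.CXCook

set_option autoImplicit false

namespace Pool.Agent.H.MP_28d887_lc

open Pool.Agent.Lib.CX

abbrev F := List (Cl3 ℕ)

def lit (φ : F) (k : ℕ) : ℕ × Bool :=
  if k % 3 = 0 then (φ.getD (k / 3) ((0, true), (0, true), (0, true))).1
  else if k % 3 = 1 then (φ.getD (k / 3) ((0, true), (0, true), (0, true))).2.1
  else (φ.getD (k / 3) ((0, true), (0, true), (0, true))).2.2
def nd (φ : F) (k : ℕ) : ℕ :=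
  (lit φ k).1 * (6 * φ.length) + (k + if (lit φ k).2 = true then 0 else 3 * φ.length)
def nx (k : ℕ) : ℕ := 3 * (k / 3) + (k + 1) % 3
def ty (φ : F) (c : ℕ) : ℕ :=
  if c % 2 = 1 then 2 else if c / 2 % (6 * φ.length) < 3 * φ.length then 0 else 1
def fv (φ : F) (h c : ℕ) : ℕ :=
  if c % 2 = 1 then (if h = 2 ∧ (c / 2 + 1) % (6 * φ.length) ≠ 0 then c + 1 else c)
  else if h = 1 then (if (c / 2 + 1) % (6 * φ.length) ≠ 0 then c + 1 else c)
  else if h = 2 then (if c / 2 % (6 * φ.length) ≠ 0 then c - 2 else c)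
  else if nd φ (c / 2 % (3 * φ.length)) = c / 2 then 2 * nd φ (nx (c / 2 % (3 * φ.length))) else c

variable {φ : F}

lemma ty_lt (c : ℕ) : ty φ c < 3 := by unfold ty; split_ifs <;> omega

lemma nd3 (k : ℕ) : nd φ k % 3 = k % 3 := by
  unfold nd
  rw [show (lit φ k).1 * (6 * φ.length) = 3 * ((lit φ k).1 * (2 * φ.length)) by ring]
  split_ifs <;> omega

lemma ndL {k : ℕ} (h : k < 3 * φ.length) : nd φ k % (3 * φ.length) = k := by
  unfold nd
  rw [show (lit φ k).1 * (6 * φ.length) = 3 * φ.length * ((lit φ k).1 * 2) by ring, Nat.mul_add_mod]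
  split_ifs <;> simp [Nat.mod_eq_of_lt h]

lemma dm {M v c : ℕ} (h : c < M) : (v * M + c) % M = c ∧ (v * M + c) / M = v := by
  rw [Nat.mul_add_mod_of_lt h, mul_comm, Nat.mul_add_div (by omega), Nat.div_eq_of_lt h]
  simp

lemma nx_lt {k : ℕ} (h : k < 3 * φ.length) : nx k < 3 * φ.length := by unfold nx; omega

lemma edge (h0 : 0 < φ.length) {g x y : ℕ} (h1 : y ≠ x) (h : fv φ (rel g x) x = y) :
    (x % 2 = 1 ∧ rel g x = 2 ∧ y = x + 1 ∧ (x / 2 + 1) % (6 * φ.length) ≠ 0) ∨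
    (x % 2 = 0 ∧ rel g x = 1 ∧ y = x + 1 ∧ (x / 2 + 1) % (6 * φ.length) ≠ 0) ∨
    (x % 2 = 0 ∧ rel g x = 2 ∧ y + 2 = x ∧ (y / 2 + 1) % (6 * φ.length) ≠ 0) ∨
    (rel g x = 0 ∧ ∃ k < 3 * φ.length, x = 2 * nd φ k ∧ y = 2 * nd φ (nx k)) := by
  have := rel_lt g x
  unfold fv at h
  split_ifs at h with a1 a2 a3 a4 a5 a6 a7 <;> try omega
  · have : x / 2 ≠ 0 := fun e => by simp [e] at a6
    rw [show y / 2 + 1 = x / 2 by omega]
    omega
  · exact .inr (.inr (.inr ⟨by omega, _, Nat.mod_lt _ (by omega), by omega, h.symm⟩))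

lemma nd_inj {k l : ℕ} (h1 : k < 3 * φ.length) (h2 : l < 3 * φ.length) (h : 2 * nd φ k = 2 * nd φ l) :
    k = l := by rw [← ndL h1, show nd φ k = nd φ l by omega, ndL h2]

lemma no2 (h0 : 0 < φ.length) (g x y : ℕ) (h1 : y ≠ x) (h : fv φ (rel g x) x = y) :
    fv φ (rel (g + 1) y) y ≠ x := fun h2 => by
  rcases edge h0 h1 h with a | a | a | ⟨a, k, hk, a1, a2⟩ <;>
    rcases edge h0 h1.symm h2 with b | b | b | ⟨b, l, hl, b1, b2⟩ <;> unfold rel at a b <;> try omega
  have := nd_inj hk (nx_lt hl) (a1.symm.trans b2)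
  have := nd_inj hl (nx_lt hk) (b1.symm.trans a2)
  unfold nx at *
  omega

lemma tri_of (h0 : 0 < φ.length) {N : ℕ} {H : ℕ → ℕ → Prop}
    (F1 : ∀ x, x % 2 = 0 → (x / 2 + 1) % (6 * φ.length) ≠ 0 → H 1 x ∨ H 2 (x + 2))
    (F2 : ∀ k < 3 * φ.length, H 0 (2 * nd φ k) ∨ H 0 (2 * nd φ (nx k)) ∨ H 0 (2 * nd φ (nx (nx k))))
    (g : ℕ) : Tri (fv φ) N H g := fun x _ y _ z _ a1 a2 a3 b1 b2 b3 => by
  rcases edge h0 a1 b1 with a | a | a | ⟨a, k, hk, a1, a2⟩
  · have c : rel (g + 1) y = 2 := by unfold rel at *; omega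
    rcases edge h0 a2 b2 with b | b | b | b <;> try omega
    have d : rel (g + 2) z = 1 := by unfold rel at *; omega
    rw [c, d, ← b.2.2.1]
    exact .inr (F1 z (by omega) b.2.2.2).symm
  · have c : rel (g + 1) y = 2 := by unfold rel at *; omega
    rcases edge h0 a2 b2 with b | b | b | b <;> try omega
    have d : rel (g + 2) z = 2 := by unfold rel at *; omega
    rw [a.2.1, d, show z = x + 2 by omega]
    exact (F1 x a.1 a.2.2.2).imp_right .inr
  · have c : rel (g + 1) y = 1 := by unfold rel at *; omega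
    rw [c, a.2.1, ← a.2.2.1]
    exact (F1 y (by omega) a.2.2.2).symm.imp_right .inl
  · have c : rel (g + 1) y = 0 := by
      have := nd3 (φ := φ) k; have := nd3 (φ := φ) (nx k); unfold rel nx at *; omega
    rcases edge h0 ‹z ≠ y› b2 with b | b | b | ⟨-, l, hl, b1, b2⟩ <;> try omega
    obtain rfl := nd_inj hl (nx_lt hk) (b1.symm.trans a2)
    have d : rel (g + 2) z = 0 := by
      have := nd3 (φ := φ) k; have := nd3 (φ := φ) (nx (nx k)); unfold rel nx at *; omega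
    rw [a, c, d, a1, a2, b2]
    exact F2 k hk

lemma lit_mem {k : ℕ} (h : k < 3 * φ.length) : ∃ C ∈ φ, (lit φ k).1 ∈ C.vars := by
  have h1 : k / 3 < φ.length := by omega
  refine ⟨φ[k / 3], List.getElem_mem _, ?_⟩
  unfold lit
  split_ifs <;> simp [h1, Cl3.vars]

lemma sat_iff {v : ℕ → Bool} : (∀ C ∈ φ, C.ok v) ↔ ∀ k < 3 * φ.length, v (lit φ k).1 = (lit φ k).2 ∨
    v (lit φ (nx k)).1 = (lit φ (nx k)).2 ∨ v (lit φ (nx (nx k))).1 = (lit φ (nx (nx k))).2 := by
  have e : ∀ j (hj : j < φ.length), φ[j].ok v ↔ v (lit φ (3 * j)).1 = (lit φ (3 * j)).2 ∨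
      v (lit φ (3 * j + 1)).1 = (lit φ (3 * j + 1)).2 ∨ v (lit φ (3 * j + 2)).1 = (lit φ (3 * j + 2)).2 :=
    fun j hj => by
      simp [lit, Cl3.ok, hj, Nat.mul_add_div]
  rw [List.forall_mem_iff_forall_getElem]
  refine ⟨fun h k hk => ?_, fun h j hj => ?_⟩
  · obtain ⟨j, rfl | rfl | rfl⟩ : ∃ j, k = 3 * j ∨ k = 3 * j + 1 ∨ k = 3 * j + 2 := ⟨k / 3, by omega⟩ <;>
      have := (e j _).1 (h j (by omega))
    · rwa [show nx (3 * j) = 3 * j + 1 by unfold nx; omega, show nx (3 * j + 1) = 3 * j + 2 by unfold nx; omega]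
    · rw [show nx (3 * j + 1) = 3 * j + 2 by unfold nx; omega, show nx (3 * j + 2) = 3 * j by unfold nx; omega]
      tauto
    · rw [show nx (3 * j + 2) = 3 * j by unfold nx; omega, show nx (3 * j) = 3 * j + 1 by unfold nx; omega]
      tauto
  · have := h (3 * j) (by omega)
    rwa [show nx (3 * j) = 3 * j + 1 by unfold nx; omega,
      show nx (3 * j + 1) = 3 * j + 2 by unfold nx; omega, ← e j hj] at this

lemma nd_dm {k : ℕ} (h : k < 3 * φ.length) : nd φ k / (6 * φ.length) = (lit φ k).1 ∧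
    ty φ (2 * nd φ k) = if (lit φ k).2 = true then 0 else 1 := by
  have := dm (M := 6 * φ.length) (v := (lit φ k).1)
    (c := k + if (lit φ k).2 = true then 0 else 3 * φ.length) (by split_ifs <;> omega)
  refine ⟨this.2, ?_⟩
  rw [ty, if_neg (by omega), Nat.mul_div_cancel_left _ (by omega), nd, this.1]
  split_ifs <;> omega

lemma good_of (h0 : 0 < φ.length) (h : Sat3 φ) (N : ℕ) : ∃ P, Good (ty φ) (fv φ) (3 * N) P := by
  obtain ⟨v, h⟩ := h
  refine compl ty_lt (fun c => v (c / 2 / (6 * φ.length))) (no2 h0) (tri_of h0 (fun x h1 h2 => ?_)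
    (fun k hk => ?_) 0)
  · have t : ∀ x, x % 2 = 0 → ty φ x < 2 := fun x h => by unfold ty; split_ifs <;> omega
    rw [show (x + 2) / 2 = x / 2 + 1 by omega, Nat.succ_div, if_neg (by
      rwa [Nat.dvd_iff_mod_eq_zero]), add_zero]
    cases v (x / 2 / (6 * φ.length))
    exacts [.inl (K3.2.2 _ (t x h1)).1, .inr (K3.2.2 _ (t _ (by omega))).2]
  · have e : ∀ k < 3 * φ.length, v (lit φ k).1 = (lit φ k).2 → hap (ty φ (2 * nd φ k)) 0
        (MF (ty φ (2 * nd φ k)) (v (2 * nd φ k / 2 / (6 * φ.length))) 0 0) := fun k hk h => by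
      rw [Nat.mul_div_cancel_left _ (by omega), (nd_dm hk).1, (nd_dm hk).2, h]
      cases (lit φ k).2
      exacts [K3.2.1, K3.1]
    exact (sat_iff.1 h k hk).imp (e _ hk) (.imp (e _ (nx_lt hk)) (e _ (nx_lt (nx_lt hk))))

lemma of_good (hv : ∀ C ∈ φ, ∀ x ∈ C.vars, x < 3 * φ.length) {P : ℕ → ℕ → ℕ}
    (h : Good (ty φ) (fv φ) (3 * (2 * (3 * φ.length * (6 * φ.length)))) P) : Sat3 φ := by
  classical
  obtain ⟨H, h1, h2⟩ := sound ty_lt h
  have bd : ∀ v < 3 * φ.length, ∀ c < 6 * φ.length,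
      v * (6 * φ.length) + c < 3 * φ.length * (6 * φ.length) := fun v hv c hc => by nlinarith
  have F1 : ∀ v < 3 * φ.length, ∀ c, c + 1 < 6 * φ.length → H 1 (2 * (v * (6 * φ.length) + c)) ∨
      H 2 (2 * (v * (6 * φ.length) + (c + 1))) := fun v hv c hc => by
    have b1 := bd v hv _ hc
    have b2 : (v * (6 * φ.length) + c + 1) % (6 * φ.length) ≠ 0 := by
      rw [add_assoc, (dm hc).1]; omega
    rw [← add_assoc] at b1 ⊢
    generalize v * (6 * φ.length) + c = q at *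
    have r1 : rel (q + 1) (2 * q) = 1 := by unfold rel; omega
    have r2 : rel (q + 1 + 1) (2 * q + 1) = 2 := by unfold rel; omega
    have r3 : rel (q + 1 + 2) (2 * (q + 1)) = 2 := by unfold rel; omega
    have := h2 (q + 1) (2 * q) (by omega) (2 * q + 1) (by omega) (2 * (q + 1)) (by omega) (by omega)
      (by omega) (by omega) (by simp [r1, fv, b2])
      (by simp [r2, fv, b2, show (2 * q + 1) / 2 = q by omega]; omega)
      (by simp [r3, fv, b2]; omega)
    rw [r1, r2, r3] at this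
    have := (h1 (2 * q + 1) (by omega)).2.2.1 (by simp [ty])
    tauto
  have ch : ∀ v < 3 * φ.length, ∀ c d, c + d + 1 < 6 * φ.length → ¬ H 1 (2 * (v * (6 * φ.length) + c)) →
      H 2 (2 * (v * (6 * φ.length) + (c + d + 1))) := fun v hv c d hd h3 => by
    induction d with
    | zero => exact (F1 v hv c hd).resolve_left h3
    | succ d ih =>
      refine (F1 v hv _ hd).resolve_left fun h4 => (h1 _ ?_).2.2.2 ⟨h4, ih (by omega), ?_⟩
      · have := bd v hv (c + (d + 1)) (by omega)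
        omega
      · unfold ty
        split_ifs <;> omega
  have lv : ∀ k < 3 * φ.length, (lit φ k).1 < 3 * φ.length := fun k hk => by
    obtain ⟨C, h3, h4⟩ := lit_mem hk
    exact hv C h3 _ h4
  have nb : ∀ k < 3 * φ.length, nd φ k < 3 * φ.length * (6 * φ.length) := fun k hk =>
    bd _ (lv k hk) _ (by split_ifs <;> omega)
  refine ⟨fun v => decide (∃ c < 3 * φ.length, H 0 (2 * (v * (6 * φ.length) + c))),
    sat_iff.2 fun k hk => ?_⟩
  have e : ∀ k < 3 * φ.length, H 0 (2 * nd φ k) → decide (∃ c < 3 * φ.length,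
      H 0 (2 * ((lit φ k).1 * (6 * φ.length) + c))) = (lit φ k).2 := fun k hk h3 => by
    have h4 := (nd_dm hk).2
    have h5 := nb k hk
    have h6 := h1 (2 * nd φ k) (by omega)
    rw [h4, nd] at h6
    rw [nd] at h3
    cases h7 : (lit φ k).2
    · simp only [h7, Bool.false_eq_true, if_false] at h3 h6
      refine decide_eq_false fun ⟨c, hc, h8⟩ => h6.2.1 trivial ⟨h3, ?_⟩
      have := bd _ (lv k hk) c (by omega)
      have h9 := ch _ (lv k hk) c (k + 3 * φ.length - c - 1) (by omega) fun h9 =>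
        (h1 _ (by omega)).1 (by
          rw [ty, if_neg (by omega), Nat.mul_div_cancel_left _ (by omega), (dm (by omega)).1, if_pos hc])
          ⟨h8, h9⟩
      rwa [show c + (k + 3 * φ.length - c - 1) + 1 = k + 3 * φ.length by omega] at h9
    · exact decide_eq_true ⟨k, hk, by simpa [h7] using h3⟩
  have k1 := nx_lt hk
  have k2 := nx_lt k1
  have n0 := nd3 (φ := φ) k
  have n1 := nd3 (φ := φ) (nx k)
  have n2 := nd3 (φ := φ) (nx (nx k))
  have r1 : rel k (2 * nd φ k) = 0 := by unfold rel; omega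
  have r2 : rel (k + 1) (2 * nd φ (nx k)) = 0 := by unfold rel nx at *; omega
  have r3 : rel (k + 2) (2 * nd φ (nx (nx k))) = 0 := by unfold rel nx at *; omega
  have f : ∀ k < 3 * φ.length, fv φ 0 (2 * nd φ k) = 2 * nd φ (nx k) := fun k hk => by
    simp [fv, ndL hk]
  have := h2 k _ (by have := nb k hk; omega) _ (by have := nb _ k1; omega) _ (by have := nb _ k2; omega)
    (by unfold nx at *; omega) (by unfold nx at *; omega) (by unfold nx at *; omega)
    (r1 ▸ f k hk) (r2 ▸ f _ k1) (by rw [r3, f _ k2, show nx (nx (nx k)) = k by unfold nx; omega])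
  rw [r1, r2, r3] at this
  exact this.imp (e _ hk) (.imp (e _ k1) (e _ k2))

end Pool.Agent.H.MP_28d887_lc
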